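import Pool.Agent.H65.ZZ2
import Pool.Agent.H65.Thom7

namespace Pool.Agent.Results.MP_f02a84_al.NotRF

open Pool.Agent.H65 Pool.Agent.H65.Squier Pool.Agent.H65.Thom

/-- A diagram group over a finite semigroup presentation that has no subgroup isomorphic to
Thompson's group `F`, is not linear over any field and is not residually finite. -/
theorem result : ∃ (A : Type) (R : Set (List A × List A)) (w : Vtx R),
    Finite A ∧ R.Finite ∧ (∀ r ∈ R, r.1 ≠ [] ∧ r.2 ≠ [] ∧ r.swap ∉ R) ∧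
    (¬ ∃ f : ThompsonF →* DiagramGroup R w, Function.Injective f) ∧
    (¬ ∃ (K : Type) (_ : Field K) (n : ℕ) (f : DiagramGroup R w →* GL (Fin n) K),
      Function.Injective f) ∧
    ¬ Group.ResiduallyFinite (DiagramGroup R w) := by
  obtain ⟨T, α, β, h1, h2⟩ := ZZ.exists_elts
  refine ⟨Fin 5, ZZ.R, ZZ.w0, inferInstance, by unfold ZZ.R; exact Set.toFinite _, ?_, ?_, ?_, ZZ.not_rf h1 h2⟩
  · rintro _ (rfl | rfl | rfl | rfl | rfl | rfl) <;> simp [ZZ.R]
  · rintro ⟨f, hf⟩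
    obtain ⟨x, y, z, c1, c2, c3, h⟩ := F3
    obtain ⟨i, j, k, h3, h4⟩ := ZZ.dep3 (c1.map (ZZ.Θ.comp f)) (c2.map _) (c3.map _)
    refine h3 (h i j k ((ZZ.Θ_inj.comp hf) ?_))
    simpa using h4
  · rintro ⟨K, _, n, f, hf⟩
    exact ZZ.not_lin h1 h2 f hf

end Pool.Agent.Results.MP_f02a84_al.NotRF
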